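import Mathlib
import Pool.Agent.Lib.MP_a0f451_an.Final

set_option autoImplicit false

namespace Pool.Agent.Results.MP_a0f451_an.BoundedDensity

open Pool.Agent.Lib.Biharm

/-- An analytic functional on the unit circle whose biharmonic Poisson transform is `O(1 + R)`,
with `R` the hyperbolic distance to the origin, is given by a bounded density. -/
theorem result (ν : AnalyticFunctional)
    (h : ∃ C : ℝ, ∀ (z : ℂ) (hz : ‖z‖ < 1), ‖biharmonicTransform ν z hz‖ ≤
      C * (1 + Real.log ((1 + ‖z‖) / (1 - ‖z‖)))) :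
    ∃ φ : ℝ → ℂ, Measurable φ ∧ Function.Periodic φ (2 * Real.pi) ∧
      (∃ M : ℝ, ∀ t, ‖φ t‖ ≤ M) ∧
      ∀ g : RealAnalyticCircle, ν.toFun g = (2 * Real.pi : ℂ)⁻¹ *
        ∫ t in (0 : ℝ)..(2 * Real.pi), (g : Circle → ℂ) (Circle.exp t) * φ t := by
  obtain ⟨C, hC⟩ := h
  exact main ν C hC

end Pool.Agent.Results.MP_a0f451_an.BoundedDensity
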